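import Pool.Agent.N520.RO.Stm

/-!
Project RO (helper520): simultaneous triangularization (helper717).
-/

set_option autoImplicit false

open Set Filter Topology
open Pool.Agent.Y449.MS

namespace Pool.Agent.N717.RO

open Pool.Agent.N520.RO

namespace Tria

variable {W : Type} [AddCommGroup W] [Module ℂ W] {Λ : Type} [Group Λ]

/-- operators with the eigenvector `v` form a subspace -/
theorem span_eig (s : Set (W →ₗ[ℂ] W)) (v : W) (hs : ∀ T ∈ s, ∃ μ : ℂ, T v = μ • v)
    {T : W →ₗ[ℂ] W} (hT : T ∈ Submodule.span ℂ s) : ∃ μ : ℂ, T v = μ • v := by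
  induction hT using Submodule.span_induction with
  | mem T hT => exact hs T hT
  | zero => exact ⟨0, by rw [LinearMap.zero_apply, zero_smul]⟩
  | add T T' _ _ h h' =>
    obtain ⟨a, ha⟩ := h
    obtain ⟨b, hb⟩ := h'
    exact ⟨a + b, by rw [LinearMap.add_apply, ha, hb, add_smul]⟩
  | smul c T _ h =>
    obtain ⟨a, ha⟩ := h
    exact ⟨c * a, by rw [LinearMap.smul_apply, ha, mul_smul]⟩

theorem Cm_map {M : Type} [Group M] (f : M →* Λ) (F : Set M) (k : ℕ) (x : M) (hx : x ∈ Cm F k) :
    f x ∈ Cm (f '' F) k := by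
  induction k generalizing x with
  | zero => exact ⟨x, hx, rfl⟩
  | succ k ih =>
    obtain ⟨y, hy, z, hz, rfl⟩ := hx
    refine ⟨f y, ih y hy, f z, ⟨z, hz, rfl⟩, ?_⟩
    rw [map_mul, map_mul, map_mul, map_inv, map_inv]

/-- a common eigenvector of the elements of `X` -/
theorem eig (h : S_CE) [FiniteDimensional ℂ W] [Nontrivial W] (ρ : Λ →* (W ≃ₗ[ℂ] W)) (X : Set Λ)
    (h1 : ∀ F ⊆ X, F.Finite → ∃ k, ∀ x ∈ Cm F k, ρ x = 1)
    (h2 : ∀ x ∈ X, ∀ (μ : ℂ) (w : W), w ≠ 0 → ρ x w = μ • w → ‖μ - 1‖ ≤ 1 / 8) :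
    ∃ v : W, v ≠ 0 ∧ ∀ x ∈ X, ∃ μ : ℂ, ρ x v = μ • v := by
  classical
  set f : Λ → (W →ₗ[ℂ] W) := fun x => (ρ x).toLinearMap with hf
  have hfg : (Submodule.span ℂ (f '' X)).FG := IsNoetherian.noetherian _
  obtain ⟨s', hs', hsp⟩ := (Submodule.fg_span_iff_fg_span_finset_subset _).1 hfg
  obtain ⟨F, hFX, hF⟩ := Finset.subset_set_image_iff.1 hs'
  obtain ⟨v, hv0, hv⟩ := h W Λ ρ (F : Set Λ) (h1 _ hFX F.finite_toSet)
    (fun x hx => h2 x (hFX hx))
  refine ⟨v, hv0, fun x hx => ?_⟩
  have h3 : f x ∈ Submodule.span ℂ (s' : Set (W →ₗ[ℂ] W)) := by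
    rw [← hsp]
    exact Submodule.subset_span ⟨x, hx, rfl⟩
  refine span_eig _ v (fun T hT => ?_) h3
  rw [← hF, Finset.mem_coe, Finset.mem_image] at hT
  obtain ⟨y, hy, rfl⟩ := hT
  exact hv y hy

/-- the stabilizer of a subspace -/
def St (ρ : Λ →* (W ≃ₗ[ℂ] W)) (U : Submodule ℂ W) : Subgroup Λ where
  carrier := {g | U.map (ρ g).toLinearMap = U}
  one_mem' := by
    rw [mem_ofPred_eq, map_one]
    exact Submodule.map_id U
  mul_mem' := by
    intro a b ha hb
    rw [mem_ofPred_eq] at ha hb ⊢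
    have e : (ρ (a * b)).toLinearMap = (ρ a).toLinearMap.comp (ρ b).toLinearMap := by
      rw [map_mul]
      rfl
    rw [e, Submodule.map_comp, hb, ha]
  inv_mem' := by
    intro a ha
    rw [mem_ofPred_eq] at ha ⊢
    have e : (ρ a⁻¹).toLinearMap.comp (ρ a).toLinearMap = LinearMap.id := by
      refine LinearMap.ext fun w => ?_
      change (ρ a⁻¹ * ρ a) w = w
      rw [← map_mul, inv_mul_cancel, map_one]
      rfl
    conv_lhs => rw [← ha]
    rw [← Submodule.map_comp, e, Submodule.map_id]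

/-- the representation on the quotient -/
noncomputable def rq (ρ : Λ →* (W ≃ₗ[ℂ] W)) (U : Submodule ℂ W) :
    St ρ U →* ((W ⧸ U) ≃ₗ[ℂ] (W ⧸ U)) where
  toFun g := Submodule.Quotient.equiv U U (ρ g) g.2
  map_one' := by
    refine LinearEquiv.ext fun q => ?_
    obtain ⟨w, rfl⟩ := U.mkQ_surjective q
    change U.mkQ (ρ (1 : Λ) w) = U.mkQ w
    rw [map_one]
    rfl
  map_mul' a b := by
    refine LinearEquiv.ext fun q => ?_
    obtain ⟨w, rfl⟩ := U.mkQ_surjective q
    change U.mkQ (ρ ((a : Λ) * b) w) = U.mkQ (ρ a (ρ b w))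
    rw [map_mul]
    rfl

theorem rq_mk (ρ : Λ →* (W ≃ₗ[ℂ] W)) (U : Submodule ℂ W) (g : St ρ U) (w : W) :
    rq ρ U g (U.mkQ w) = U.mkQ (ρ g w) := rfl

theorem main (h : S_CE) : ∀ (n : ℕ) (W : Type) [AddCommGroup W] [Module ℂ W]
    [FiniteDimensional ℂ W] (Λ : Type) [Group Λ] (ρ : Λ →* (W ≃ₗ[ℂ] W)) (X : Set Λ),
    Module.finrank ℂ W = n →
    (∀ F ⊆ X, F.Finite → ∃ k, ∀ x ∈ Cm F k, ρ x = 1) →
    (∀ x ∈ X, ∀ (μ : ℂ) (w : W), w ≠ 0 → ρ x w = μ • w → ‖μ - 1‖ ≤ 1 / 8) →
    Tri (fun x : X => (ρ (x : Λ)).toLinearMap) (⊤ : Submodule ℂ W) := by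
  intro n
  induction n with
  | zero =>
    intro W _ _ _ Λ _ ρ X hn h1 h2
    have hs : Subsingleton W := Module.finrank_zero_iff.1 hn
    refine ⟨0, fun _ => ⊥, rfl, Subsingleton.elim _ _, ?_, fun j => ⟨0, ?_⟩⟩
    · intro j g f hf
      rw [Submodule.mem_bot] at hf
      rw [hf, map_zero]
      exact Submodule.zero_mem _
    · exact Subsingleton.elim _ _
  | succ n ih =>
    intro W _ _ _ Λ _ ρ X hn h1 h2
    have hnt : Nontrivial W := Module.nontrivial_of_finrank_pos (R := ℂ) (by omega)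
    obtain ⟨v, hv0, hv⟩ := eig h ρ X h1 h2
    set U : Submodule ℂ W := Submodule.span ℂ {v} with hU
    have hXS : ∀ x ∈ X, x ∈ St ρ U := by
      intro x hx
      obtain ⟨μ, hμ⟩ := hv x hx
      have hμ0 : μ ≠ 0 := by
        rintro rfl
        rw [zero_smul] at hμ
        exact hv0 ((ρ x).map_eq_zero_iff.1 hμ)
      change U.map (ρ x).toLinearMap = U
      rw [hU, Submodule.map_span, Set.image_singleton]
      change Submodule.span ℂ {ρ x v} = _
      rw [hμ]
      exact Submodule.span_singleton_smul_eq (isUnit_iff_ne_zero.2 hμ0) v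
    have hdim : Module.finrank ℂ (W ⧸ U) = n := by
      have e1 := Submodule.finrank_quotient_add_finrank U
      have e2 : Module.finrank ℂ U = 1 := finrank_span_singleton hv0
      omega
    obtain ⟨l, c, c0, cl, cinv, cstep⟩ := ih (W ⧸ U) (St ρ U) (rq ρ U) {g | (g : Λ) ∈ X} hdim
      (by
        intro F hF hfin
        obtain ⟨k, hk⟩ := h1 ((St ρ U).subtype '' F) (by
          rintro _ ⟨y, hy, rfl⟩
          exact hF hy) (hfin.image _)
        refine ⟨k, fun x hx => LinearEquiv.ext fun q => ?_⟩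
        obtain ⟨w, rfl⟩ := U.mkQ_surjective q
        have h3 := hk _ (Cm_map (St ρ U).subtype F k x hx)
        rw [rq_mk]
        change U.mkQ (ρ ((St ρ U).subtype x) w) = U.mkQ w
        rw [h3]
        rfl)
      (by
        intro x hx μ q hq0 hq
        obtain ⟨w, rfl⟩ := U.mkQ_surjective q
        rw [rq_mk, ← map_smul, ← sub_eq_zero, ← map_sub, Submodule.mkQ_apply,
          Submodule.Quotient.mk_eq_zero] at hq
        obtain ⟨a, ha⟩ := Submodule.mem_span_singleton.1 hq
        obtain ⟨ν, hν⟩ := hv x hx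
        by_cases hμν : ν = μ
        · rw [hμν] at hν
          exact h2 x hx μ v hv0 hν
        · have hne : ν - μ ≠ 0 := sub_ne_zero.2 hμν
          refine h2 x hx μ (w - (a / (ν - μ)) • v) ?_ ?_
          · intro h0
            apply hq0
            rw [sub_eq_zero] at h0
            rw [h0, Submodule.mkQ_apply, Submodule.Quotient.mk_eq_zero, hU]
            exact Submodule.smul_mem _ _ (Submodule.mem_span_singleton_self v)
          · have e1 : ρ (x : Λ) w = μ • w + a • v := by
              rw [ha]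
              abel
            rw [map_sub, map_smul, hν, e1, smul_sub, smul_smul, smul_smul]
            have e2 : a = (a / (ν - μ)) * ν - μ * (a / (ν - μ)) := by
              field_simp
            conv_lhs =>
              rw [e2]
            rw [sub_smul]
            have e3 : (a / (ν - μ)) * ν - μ * (a / (ν - μ)) = a := e2.symm
            rw [e3]
            abel)
    refine ⟨l + 1, fun j => Nat.casesOn j ⊥ fun i => (c i).comap U.mkQ, rfl, ?_, ?_, ?_⟩
    · change (c l).comap U.mkQ = ⊤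
      rw [cl]
      exact Submodule.comap_top _
    · intro j
      cases j with
      | zero =>
        intro g f hf
        have hf' : f = 0 := hf
        rw [hf', map_zero]
        exact Submodule.zero_mem _
      | succ j =>
        intro g f hf
        have hf' : U.mkQ f ∈ c j := hf
        have h3 := cinv j ⟨⟨g.1, hXS g.1 g.2⟩, g.2⟩ _ hf'
        exact h3
    · intro j
      cases j with
      | zero =>
        refine ⟨v, ?_⟩
        change (c 0).comap U.mkQ = ⊥ ⊔ Submodule.span ℂ {v}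
        rw [c0, bot_sup_eq]
        exact U.ker_mkQ
      | succ j =>
        obtain ⟨q, hq⟩ := cstep j
        obtain ⟨w, rfl⟩ := U.mkQ_surjective q
        refine ⟨w, ?_⟩
        change (c (j + 1)).comap U.mkQ = (c j).comap U.mkQ ⊔ Submodule.span ℂ {w}
        rw [hq]
        refine le_antisymm ?_ ?_
        · intro y hy
          rw [Submodule.mem_comap, Submodule.mem_sup] at hy
          obtain ⟨a, ha, b, hb, hab⟩ := hy
          rw [Submodule.mem_span_singleton] at hb
          obtain ⟨t, rfl⟩ := hb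
          rw [Submodule.mem_sup]
          refine ⟨y - t • w, ?_, t • w, Submodule.smul_mem _ _ (Submodule.mem_span_singleton_self w),
            sub_add_cancel _ _⟩
          rw [Submodule.mem_comap, map_sub, map_smul, ← hab, add_sub_cancel_right]
          exact ha
        · refine sup_le (Submodule.comap_mono le_sup_left) ?_
          rw [Submodule.span_singleton_le_iff_mem, Submodule.mem_comap]
          exact Submodule.mem_sup_right (Submodule.mem_span_singleton_self _)

end Tria

theorem t_tria (h : S_CE) : S_TRIA := by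
  intro W _ _ _ Λ _ ρ X h1 h2
  exact Tria.main h _ W Λ ρ X rfl h1 h2

end Pool.Agent.N717.RO
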